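import Pool.Agent.W495.TC.Final
import Pool.Agent.W495.TB.Main
import Pool.Agent.W21.TC.SepMain
import Pool.Agent.W975.TC.Single
import Pool.Agent.W493.TC.Group
import Pool.Agent.W493.TC.Loc
import Pool.Agent.W493.TC.Indep
import Pool.Agent.W99.TC.Cancel
import Pool.Agent.W101.TC.Clos
import Pool.Agent.W959.TC.Comb

/-!
# The theorem on abelian varieties with small factors
-/

set_option autoImplicit false

namespace Pool.Agent.W495.TC

theorem small_of_comb (hcomb : S_combC) : S_small :=
  small_of_parts Pool.Agent.W366.TA.val Pool.Agent.W64.TA.ru Pool.Agent.W67.TA.basis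
    Pool.Agent.W351.TA.expand Pool.Agent.W82.TA.pull Pool.Agent.W333.TA.closed1
    Pool.Agent.W976.TA.push Pool.Agent.W636.TB.flip2
    Pool.Agent.W918.TB.orb Pool.Agent.W902.TB.honda Pool.Agent.W177.TB.weilG
    Pool.Agent.W287.TBSS.ss2 Pool.Agent.W495.TA.struct Pool.Agent.W21.TC.sep
    Pool.Agent.W975.TC.single Pool.Agent.W493.TC.group Pool.Agent.W493.TC.loc
    Pool.Agent.W493.TC.indep hcomb Pool.Agent.W99.TC.cancel Pool.Agent.W101.TC.clos

theorem small : S_small := small_of_comb Pool.Agent.W959.TC.comb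

end Pool.Agent.W495.TC
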