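import Pool.Agent.W495.TC.Stms

/-!
# Abelian varieties with small factors: the blocks
-/

set_option autoImplicit false
set_option linter.unusedSectionVars false
set_option linter.unusedVariables false

namespace Pool.Agent.W495.TC

open NumberField Pool.Agent.H204R3.CM Pool.Agent.W547.KB Pool.Agent.W547.LD Module
  Pool.Agent.W495.TA Pool.Agent.W495.TB
open scoped TensorProduct

noncomputable section

/-- The blocks without a change of signs. -/
theorem blockCore (hval : S_val) (hru : S_ru) (hbasis : S_basis) (hpull : S_pull)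
    (hcl : S_closed1) (horb : S_orb) (hhonda : S_honda) (hweil : S_weilG)
    (p : ℕ) [Fact p.Prime] (ν : PadicAlgCl p ≃+* ℂ) (Ω : Type) [Field Ω] [CharZero Ω]
    (L : Type) [Field L] [NumberField L] [IsCMField L] [IsGalois ℚ L] (j : L →+* ℂ) (jO : L →+* Ω)
    (X : CMAV) [Fintype (Wt X L)] (s : Wt X L → ℤ)
    (hs : IsPartSign (L ≃ₐ[ℚ] L) (cc L) s)
    (hst : ∀ (τ : L ≃ₐ[ℚ] L) (w : Wt X L), tf p ν j (St j (τ • w)) = tf p ν j (St j w) →
      s (τ • w) = s w)
    (ε' : Wt X L → ℤ) (hε' : IsSign (cc L) ε')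
    (hnf : ∀ w, nf (Dec p ν j) ε' w = nf (Dec p ν j) (epsX j X) w) (r : ℕ) (u : ℤ)
    (hu : u = 1 ∨ u = -1) (hr : Nat.card {w : Wt X L // s w = 1} + r = 4 ∨
      Nat.card {w : Wt X L // s w = 1} + r = 6) (hbal : Bal (G := L ≃ₐ[ℚ] L) ε' s r u)
    (x₀ : Wt X L) (hx₀ : s x₀ = 1) :
    AlgM p ν j jO ({w : Wt X L // s w = 1} ⊕ Fin r)
      (Sum.elim (fun w => tf p ν j (St j w.1))
        fun _ => tf p ν j {σ : L ≃ₐ[ℚ] L | u * s (σ • x₀) = 1}) := by
  classical
  obtain ⟨c1, c2, c3, c4⟩ := hcl hval hru p ν Ω L j jO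
  -- the subgroup
  have hchi : ∀ τ : L ≃ₐ[ℚ] L, (s (τ • x₀) = 1 ∧ ∀ w, s (τ • w) = s w) ∨
      (s (τ • x₀) = -1 ∧ ∀ w, s (τ • w) = -s w) := by
    intro τ
    rcases hs.semi τ with h | h
    · exact Or.inl ⟨by rw [h, hx₀], h⟩
    · exact Or.inr ⟨by rw [h, hx₀], h⟩
  let N : Subgroup (L ≃ₐ[ℚ] L) :=
    { carrier := {τ | s (τ • x₀) = 1}
      one_mem' := by
        change s ((1 : L ≃ₐ[ℚ] L) • x₀) = 1
        rw [one_smul, hx₀]
      mul_mem' := by
        intro τ τ' h h'
        change s ((τ * τ') • x₀) = 1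
        rw [mul_smul]
        rcases hchi τ with h1 | h1
        · rw [h1.2]
          exact h'
        · have h2 : s (τ • x₀) = 1 := h
          rw [h1.1] at h2
          norm_num at h2
      inv_mem' := by
        intro τ h
        change s (τ⁻¹ • x₀) = 1
        rcases hchi τ with h1 | h1
        · rw [← h1.2 (τ⁻¹ • x₀), smul_inv_smul, hx₀]
        · have h2 : s (τ • x₀) = 1 := h
          rw [h1.1] at h2
          norm_num at h2 }
  have hmemN : ∀ τ, τ ∈ N ↔ s (τ • x₀) = 1 := fun τ => Iff.rfl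
  have hNsmul : ∀ τ ∈ N, ∀ w, s (τ • w) = s w := by
    intro τ hτ
    rcases hchi τ with h1 | h1
    · exact h1.2
    · rw [hmemN, h1.1] at hτ
      norm_num at hτ
  have hN : IsImag N := by
    constructor
    · rw [hmemN, hs.odd, hx₀]
      norm_num
    · intro τ hτ
      rw [hmemN] at hτ ⊢
      rw [mul_smul, hs.odd]
      rcases hchi τ with h1 | h1
      · exact absurd h1.1 hτ
      · rw [h1.1, neg_neg]
  have hset : ∀ τ : L ≃ₐ[ℚ] L, s (τ • x₀) = 1 ∨ s (τ • x₀) = -1 := by
    intro τ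
    rcases hchi τ with h1 | h1
    · exact Or.inl h1.1
    · exact Or.inr h1.1
  -- the sign function on the group
  let e0 : Set (L ≃ₐ[ℚ] L) := {σ | u * s (σ • x₀) = 1}
  have he0half : IsHalf e0 := by
    intro σ
    change u * s (σ • x₀) = 1 ↔ ¬ (u * s ((cc L * σ) • x₀) = 1)
    rw [mul_smul, hs.odd]
    rcases hu with h | h <;> rcases hset σ with h1 | h1 <;> rw [h, h1] <;> norm_num
  have he0tr : ∀ τ ∈ N, tr τ e0 = e0 := by
    intro τ hτ
    ext σ
    rw [mem_tr]
    change u * s ((σ * τ) • x₀) = 1 ↔ u * s (σ • x₀) = 1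
    rw [mul_smul]
    have h2 : s (σ • τ • x₀) = s (σ • x₀) := by
      rcases hs.semi σ with h | h
      · rw [h, h, hNsmul τ hτ]
      · rw [h, h, hNsmul τ hτ]
    rw [h2]
  -- the family
  let κ0 : Type := {w : Wt X L // s w = 1}
  let y : κ0 ⊕ Fin r → Set (L ≃ₐ[ℚ] L) := Sum.elim (fun w => ys ε' w.1) fun _ => e0
  have hy : ∀ k, IsHalf (y k) := by
    rintro (w | i)
    · exact isHalf_ys hε' w.1
    · exact he0half
  have hyN : ∀ τ ∈ N, ∃ e : κ0 ⊕ Fin r → κ0 ⊕ Fin r,
      Function.Injective e ∧ ∀ k, y (e k) = tr τ (y k) := by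
    intro τ hτ
    refine ⟨Sum.map (fun w => ⟨τ • w.1, by rw [hNsmul τ hτ]; exact w.2⟩) id, ?_, ?_⟩
    · refine Function.Injective.sumMap ?_ Function.injective_id
      intro w w' h
      have h1 : τ • w.1 = τ • w'.1 := congrArg Subtype.val h
      exact Subtype.ext (smul_left_cancel τ h1)
    · rintro (w | i)
      · exact (tr_ys ε' w.1 τ).symm
      · exact (he0tr τ hτ).symm
  obtain ⟨Q, _, x, f, hxq, hf⟩ := horb L N (κ0 ⊕ Fin r) y hyN
  have hx : ∀ q, IsHalf (x q) := by
    intro q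
    obtain ⟨k, hk⟩ := hxq q
    rw [hk]
    exact hy k
  have hstab : ∀ q, stab (x q) ≤ N := by
    intro q τ hτ
    obtain ⟨k, hk⟩ := hxq q
    rw [hk, mem_stab] at hτ
    rcases k with w | i
    · have h1 : tr τ (ys ε' w.1) = ys ε' w.1 := hτ
      rw [tr_ys] at h1
      have h2 : tf p ν j (St j (τ • w.1)) = tf p ν j (St j w.1) := by
        rw [tf_St, tf_St, ← hnf, ← hnf, ← tf_ys j hε', ← tf_ys j hε', h1]
      have h3 := hst _ _ h2
      rcases hchi τ with h4 | h4
      · exact h4.1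
      · rw [h4.2, w.2] at h3
        norm_num at h3
    · have h1 : tr τ e0 = e0 := hτ
      have h2 : (1 : L ≃ₐ[ℚ] L) ∈ tr τ e0 ↔ (1 : L ≃ₐ[ℚ] L) ∈ e0 := by rw [h1]
      rw [mem_tr, one_mul] at h2
      have h3 : u * s (τ • x₀) = 1 ↔ u * s ((1 : L ≃ₐ[ℚ] L) • x₀) = 1 := h2
      rw [one_smul, hx₀] at h3
      rw [hmemN]
      rcases hu with h | h <;> rcases hset τ with h5 | h5
      · exact h5
      · rw [h, h5] at h3
        norm_num at h3
      · exact h5
      · rw [h, h5] at h3
        norm_num at h3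
  have : Fintype (Orb N x) := Fintype.ofEquiv _ f
  have hcard : Fintype.card (Orb N x) = 4 ∨ Fintype.card (Orb N x) = 6 := by
    have h1 : Fintype.card (Orb N x) = Nat.card {w : Wt X L // s w = 1} + r := by
      rw [← Fintype.card_congr f, Fintype.card_sum, Fintype.card_fin,
        Nat.card_eq_fintype_card]
    rw [h1]
    exact hr
  have hbalanced : Balanced fun k : Orb N x => k.2.1 := by
    intro σ
    have h1 : ∑ k : Orb N x, (if σ ∈ k.2.1 then (1 : ℤ) else -1) =
        ∑ k : κ0 ⊕ Fin r, (if σ ∈ y k then (1 : ℤ) else -1) := by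
      rw [← Equiv.sum_comp f]
      refine Finset.sum_congr rfl fun k _ => ?_
      rw [hf k]
    refine Eq.trans ?_ (h1.trans ?_)
    · rfl
    rw [Fintype.sum_sum_type]
    have h2 := hbal σ x₀ hx₀
    have h3 : ∑ w : κ0, (if σ ∈ y (Sum.inl w) then (1 : ℤ) else -1) =
        ∑ w : Wt X L, if s w = 1 then ε' (σ • w) else 0 := by
      rw [← Finset.sum_filter, ← Finset.sum_subtype_eq_sum_filter]
      have h4 : (Finset.subtype (fun w : Wt X L => s w = 1) Finset.univ) = Finset.univ :=
        Finset.subtype_univ _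
      rw [h4]
      refine Finset.sum_congr rfl fun w _ => ?_
      exact ite_ys hε' w.1 σ
    have h5 : ∑ i : Fin r, (if σ ∈ y (Sum.inr i) then (1 : ℤ) else -1) =
        r * u * s (σ • x₀) := by
      have h6 : ∀ i : Fin r, (if σ ∈ y (Sum.inr i) then (1 : ℤ) else -1) = u * s (σ • x₀) := by
        intro i
        have h7 : σ ∈ y (Sum.inr i) ↔ u * s (σ • x₀) = 1 := Iff.rfl
        by_cases h8 : u * s (σ • x₀) = 1
        · rw [if_pos (h7.2 h8), h8]
        · rw [if_neg (fun h9 => h8 (h7.1 h9))]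
          rcases hu with h | h <;> rcases hset σ with h1 | h1
          · rw [h, h1] at h8
            norm_num at h8
          · rw [h, h1]
            norm_num
          · rw [h, h1]
            norm_num
          · rw [h, h1] at h8
            norm_num at h8
      rw [Finset.sum_congr rfl fun i _ => h6 i, Finset.sum_const, Finset.card_univ,
        Fintype.card_fin, nsmul_eq_mul]
      ring
    rw [h3, h5]
    exact h2
  have key1 : AlgM p ν j jO (Orb N x) fun k => tf p ν j k.2.1 :=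
    @hweil hhonda hval hru hbasis hpull p _ ν Ω _ _ L _ _ _ _ j jO N hN Q _ x hx hstab _ hcard
      hbalanced
  have hfy : ∀ k : κ0, tf p ν j (y (Sum.inl k)) = tf p ν j (St j k.1) := by
    intro k
    change tf p ν j (ys ε' k.1) = _
    rw [tf_ys j hε', hnf, tf_St]
  refine @c2 (Orb N x) (κ0 ⊕ Fin r) _ f.symm _ _ ?_ @key1
  intro k
  obtain ⟨k', rfl⟩ := f.surjective k
  rw [f.symm_apply_apply, hf k']
  rcases k' with w | i
  · exact (hfy w).symm
  · rfl

/-- Half of the signs are positive. -/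
theorem two_mul_card_sign {G X : Type} [Group G] [Fintype X] [MulAction G X] {c : G}
    (hc : c * c = 1) {s : X → ℤ} (hs : IsSign c s) :
    2 * Nat.card {x // s x = 1} = Fintype.card X := by
  classical
  have h1 : Nat.card {x // s x = 1} = Nat.card {x // ¬ s x = 1} := by
    refine Nat.card_congr ⟨fun x => ⟨c • x.1, ?_⟩, fun x => ⟨c • x.1, ?_⟩, ?_, ?_⟩
    · rw [hs.odd, x.2]
      norm_num
    · rw [hs.odd, (hs.sign x.1).resolve_left x.2]
      norm_num
    · intro x
      apply Subtype.ext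
      change c • c • x.1 = x.1
      rw [← mul_smul, hc, one_smul]
    · intro x
      apply Subtype.ext
      change c • c • x.1 = x.1
      rw [← mul_smul, hc, one_smul]
  rw [two_mul]
  nth_rewrite 2 [h1]
  rw [Nat.card_eq_fintype_card, Nat.card_eq_fintype_card, Fintype.card_subtype_compl]
  have := Fintype.card_subtype_le fun x : X => s x = 1
  omega

/-- The sum of the signs over a translate. -/
theorem sum_translate {G X : Type} [Group G] [Fintype X] [MulAction G X] {c : G}
    (hcomm : ∀ g : G, c * g = g * c) (hc : c * c = 1) {s ε : X → ℤ} (hs : IsSign c s)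
    (hε : IsSign c ε) (hsemi : Semi G s) {x₁ : X} (hx₁ : s x₁ = 1) (g : G) :
    (∑ x, if s x = 1 then ε (g • x) else 0) =
      s (g • x₁) * ∑ x, if s x = 1 then ε x else 0 := by
  classical
  have h0 : (∑ x, if s x = 1 then ε (g • x) else 0) =
      ∑ y, if s (g⁻¹ • y) = 1 then ε y else 0 := by
    refine Fintype.sum_equiv (MulAction.toPerm g) _ _ fun x => ?_
    rw [MulAction.toPerm_apply, inv_smul_smul]
  have hneg : (∑ y, if s y = -1 then ε y else 0) = -∑ x, if s x = 1 then ε x else 0 := by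
    rw [← Finset.sum_neg_distrib]
    refine Fintype.sum_equiv (MulAction.toPerm c) _ _ fun x => ?_
    rw [MulAction.toPerm_apply, hs.odd, hε.odd]
    by_cases h : s x = -1
    · rw [if_pos h, if_pos (by rw [h]; norm_num), neg_neg]
    · rw [if_neg h, if_neg (fun h1 => h (by omega)), neg_zero]
  rw [h0]
  rcases hsemi g⁻¹ with h | h
  · have h1 : s (g • x₁) = 1 := by rw [← h, inv_smul_smul, hx₁]
    rw [h1, one_mul]
    exact Finset.sum_congr rfl fun y _ => by rw [h]
  · have h1 : s (g • x₁) = -1 := by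
      have h2 := h (g • x₁)
      rw [inv_smul_smul, hx₁] at h2
      omega
    rw [h1, neg_one_mul, ← hneg]
    refine Finset.sum_congr rfl fun y _ => ?_
    rw [h]
    by_cases h2 : s y = -1
    · rw [if_pos (by rw [h2]; norm_num), if_pos h2]
    · rw [if_neg (fun h3 => h2 (by omega)), if_neg h2]

/-- The blocks of one factor. -/
theorem blockA (hval : S_val) (hru : S_ru) (hbasis : S_basis) (hpull : S_pull) (hcl : S_closed1)
    (hpush : S_push) (hflip : S_flip2) (horb : S_orb) (hhonda : S_honda) (hweil : S_weilG)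
    (hss : S_ss2) (hloc : S_loc)
    (p : ℕ) [Fact p.Prime] (ν : PadicAlgCl p ≃+* ℂ) (Ω : Type) [Field Ω] [CharZero Ω]
    (L : Type) [Field L] [NumberField L] [IsCMField L] [IsGalois ℚ L] (j : L →+* ℂ) (jO : L →+* Ω)
    (A : CMPair) [Fintype (A.E →+* L)] (s : (A.E →+* L) → ℤ) (hs : IsSign (cc L) s)
    (hsemi : Semi (L ≃ₐ[ℚ] L) s)
    (hresp : ∀ φ φ', nf (Dec p ν j) (eps j A) φ = nf (Dec p ν j) (eps j A) φ' → s φ = s φ')
    (hcard : Fintype.card (A.E →+* L) = 6) (x₀ : A.E →+* L) (hx₀ : s x₀ = 1) (F : ℤ)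
    (hF : F = ∑ φ, if s φ = 1 then eps j A φ else 0)
    (hF' : F = 1 ∨ F = -1 ∨ nf (Dec p ν j) s x₀ = 0) :
    AlgM p ν j jO ({φ : A.E →+* L // s φ = 1} ⊕ Fin 1)
      (Sum.elim (fun φ => nf (Dec p ν j) (eps j A) φ.1) fun _ => -F • nf (Dec p ν j) s x₀) := by
  classical
  obtain ⟨c1, c2, c3, c4⟩ := hcl hval hru p ν Ω L j jO
  have hset := setting j A (L := L)
  let X : CMAV := single A
  let s' : Wt X L → ℤ := fun w => s w.2
  let w₀ : Wt X L := ⟨(), x₀⟩
  have hs' : IsPartSign (L ≃ₐ[ℚ] L) (cc L) s' := by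
    refine ⟨fun w => ?_, fun w => hs.odd w.2, fun g => ?_⟩
    · rcases hs.sign w.2 with h | h
      · exact Or.inl h
      · exact Or.inr (Or.inl h)
    · rcases hsemi g with h | h
      · exact Or.inl fun w => h w.2
      · exact Or.inr fun w => h w.2
  have htf : ∀ w : Wt X L, tf p ν j (St j w) = nf (Dec p ν j) (eps j A) w.2 := fun w => tf_St j X w
  let E : {w : Wt X L // s' w = 1} ≃ {φ : A.E →+* L // s φ = 1} :=
    { toFun := fun w => ⟨w.1.2, w.2⟩
      invFun := fun φ => ⟨⟨(), φ.1⟩, φ.2⟩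
      left_inv := fun w => rfl
      right_inv := fun φ => rfl }
  have hc3 : Nat.card {w : Wt X L // s' w = 1} = 3 := by
    rw [Nat.card_congr E]
    have h1 := two_mul_card_sign (G := L ≃ₐ[ℚ] L) (c := cc L) cc_cc hs
    omega
  have hst : ∀ w w' : Wt X L, tf p ν j (St j w) = tf p ν j (St j w') → s' w = s' w' := by
    intro w w' h
    rw [htf, htf] at h
    exact hresp _ _ h
  have hfin : Fintype (Wt X L) := Fintype.ofFinite _
  have hsum : ∀ f : (A.E →+* L) → ℤ, ∑ w : Wt X L, f w.2 = ∑ φ, f φ := by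
    intro f
    refine Fintype.sum_equiv ⟨fun w => w.2, fun φ => ⟨(), φ⟩, fun w => rfl, fun φ => rfl⟩ _ _
      fun w => rfl
  obtain ⟨l1, l2, l3, l4, l5⟩ := hloc (L ≃ₐ[ℚ] L) (A.E →+* L) (cc L) hset (Dec p ν j) (eps j A)
    (isSign_eps j A) (by rw [hcard]) s hs hsemi hresp x₀ hx₀ F hF
  rcases Classical.em (nf (Dec p ν j) s x₀ = 0) with he | he
  · -- no place over `p`
    have hrel : ∀ g, ∑ w : Wt X L, s' w * tf p ν j (St j w) g = 0 := by
      intro g
      have h1 := l1 g
      rw [he] at h1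
      have h2 : ∑ w : Wt X L, s' w * tf p ν j (St j w) g =
          ∑ φ, s φ * nf (Dec p ν j) (eps j A) φ g := by
        rw [← hsum fun φ => s φ * nf (Dec p ν j) (eps j A) φ g]
        exact Finset.sum_congr rfl fun w _ => by rw [htf]
      rw [h2, h1, Pi.zero_apply, mul_zero]
    have hb : AlgM p ν j jO ({w : Wt X L // s' w = 1} ⊕ Fin 1)
        (Sum.elim (fun w => tf p ν j (St j w.1)) fun _ => 0) := by
      intro _ _
      exact (block hval hru hbasis hpull hcl hpush hflip horb hhonda hweil hss p ν Ω L j jO X s'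
        hs' hst hrel _ rfl).2 hc3
    refine @c2 _ _ _ (Equiv.sumCongr E (Equiv.refl (Fin 1))) _ _ ?_ @hb
    rintro (w | i)
    · exact (htf w.1).symm
    · change -F • nf (Dec p ν j) s x₀ = 0
      rw [he, smul_zero]
  · have hF1 : F = 1 ∨ F = -1 := by
      rcases hF' with h | h | h
      · exact Or.inl h
      · exact Or.inr h
      · exact absurd h he
    have hu : -F = 1 ∨ -F = -1 := by omega
    have hbal : Bal (G := L ≃ₐ[ℚ] L) (epsX j X) s' 1 (-F) := by
      intro g w₁ hw₁
      have h1 := sum_translate (fun g => cc_comm j g) cc_cc hs (isSign_eps j A) hsemi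
        (x₁ := w₁.2) hw₁ g
      have h2 := hsum fun φ => if s φ = 1 then eps j A (g • φ) else 0
      rw [h1, ← hF] at h2
      have h3 : (∑ w : Wt X L, if s' w = 1 then epsX j X (g • w) else 0) =
          s (g • w₁.2) * F := by
        rw [← h2]
        exact Finset.sum_congr rfl fun w _ => rfl
      have h4 : s' (g • w₁) = s (g • w₁.2) := rfl
      rw [h4]
      push_cast
      have h5 : (∑ w : Wt X L, if s' w = 1 then epsX j X (g • w) else 0) +
          1 * (-F) * s (g • w₁.2) = 0 := by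
        rw [h3]
        ring
      convert h5
    have hb : AlgM p ν j jO ({w : Wt X L // s' w = 1} ⊕ Fin 1)
        (Sum.elim (fun w => tf p ν j (St j w.1))
          fun _ => tf p ν j {σ : L ≃ₐ[ℚ] L | -F * s' (σ • w₀) = 1}) := by
      intro _ _
      exact blockCore hval hru hbasis hpull hcl horb hhonda hweil p ν Ω L j jO X s' hs'
        (fun τ w h => hst _ _ h) (epsX j X) (isSign_epsX j X) (fun w => rfl) 1 (-F) hu
        (Or.inl (by rw [hc3])) hbal w₀ hx₀
    refine @c2 _ _ _ (Equiv.sumCongr E (Equiv.refl (Fin 1))) _ _ ?_ @hb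
    rintro (w | i)
    · exact (htf w.1).symm
    · change -F • nf (Dec p ν j) s x₀ = tf p ν j (ys (fun w : Wt X L => -F * s' w) w₀)
      have hsg : IsSign (cc L) fun w : Wt X L => -F * s' w := by
        refine ⟨fun w => ?_, fun w => ?_⟩
        · rcases hu with h | h <;> rcases hs.sign w.2 with h1 | h1 <;>
            simp only [s', h, h1] <;> norm_num
        · have h1 : s' (cc L • w) = -s' w := hs.odd w.2
          simp only [h1]
          ring
      rw [tf_ys j hsg]
      funext σ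
      rw [Pi.smul_apply, smul_eq_mul]
      unfold nf
      rw [Finset.mul_sum]
      refine Finset.sum_congr rfl fun d _ => ?_
      by_cases hd : d ∈ Dec p ν j
      · rw [if_pos hd, if_pos hd]
        rfl
      · rw [if_neg hd, if_neg hd, mul_zero]

end

end Pool.Agent.W495.TC
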