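import Pool.Agent.W495.TC.Blocks

/-!
# Abelian varieties with small factors: the assembly of the proof
-/

set_option autoImplicit false
set_option linter.unusedSectionVars false
set_option linter.unusedVariables false

namespace Pool.Agent.W495.TC

open NumberField Pool.Agent.H204R3.CM Pool.Agent.W547.KB Pool.Agent.W547.LD Module
  Pool.Agent.W495.TA Pool.Agent.W495.TB
open scoped TensorProduct

noncomputable section

section val

variable {p : ℕ} [Fact p.Prime] {ν : PadicAlgCl p ≃+* ℂ}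
  {L : Type} [Field L] [NumberField L] [IsCMField L] [IsGalois ℚ L] {j : L →+* ℂ}
  {Y : RedAV p ν}

/-- The functions of the weights of a supersingular factor. -/
theorem tf_zero (hval : S_val) (hY : Big Y.X j) (i : Y.X.I) (h : IsSupersingular Y i)
    (φ : (Y.X.factor i).E →+* L) : tf p ν j (hs (Y.X.factor i) j φ) = 0 := by
  obtain ⟨s, hs0, h⟩ := h
  have h8 : ∀ σ : L ≃ₐ[ℚ] L, ‖ν.symm (j (σ (φ (Y.π i))))‖ ^ (2 * (Nat.card (Dec p ν j) : ℤ)) =
      ‖(p : PadicAlgCl p)‖ ^ ((Y.a : ℤ) * ((Nat.card (Dec p ν j) : ℤ) +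
        tf p ν j (hs (Y.X.factor i) j φ) σ)) := fun σ =>
    val_conj hval (Y.X.factor i) (hY _) Y.a (Y.π i) (Y.frob i) φ σ
  have ha : (Y.a : ℤ) ≠ 0 := by exact_mod_cast Y.pos.ne'
  funext σ
  have hs1 : (s : ℤ) ≠ 0 := by exact_mod_cast hs0.ne'
  have h1 := congrArg (fun x => ‖ν.symm (j (σ (φ x)))‖ ^ (2 * (Nat.card (Dec p ν j) : ℤ))) h
  simp only [map_pow, map_natCast, norm_pow] at h1
  have h2 : (‖ν.symm (j (σ (φ (Y.π i))))‖ ^ (2 * s)) ^ (2 * (Nat.card (Dec p ν j) : ℤ)) =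
      ‖(p : PadicAlgCl p)‖ ^ ((Y.a : ℤ) * ((Nat.card (Dec p ν j) : ℤ) +
      tf p ν j (hs (Y.X.factor i) j φ) σ) * (2 * s : ℕ)) := by
    rw [← zpow_natCast, ← zpow_mul, mul_comm, zpow_mul, h8, ← zpow_mul]
  rw [h2, ← zpow_natCast, ← zpow_natCast, ← zpow_mul, ← zpow_mul] at h1
  have h3 := zpow_inj h1
  push_cast at h3
  have h4 : ((Y.a : ℤ) * s) * (2 * tf p ν j (hs (Y.X.factor i) j φ) σ) = 0 := by linarith
  have h5 := (mul_eq_zero.1 h4).resolve_left (mul_ne_zero ha hs1)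
  change tf p ν j (hs (Y.X.factor i) j φ) σ = 0
  omega

/-- The functions of the weights of isogenous factors. -/
theorem tf_iso (hval : S_val) (hY : Big Y.X j) (i k : Y.X.I) (h : IsIsogenous Y i k)
    (φ' : (Y.X.factor k).E →+* L) : ∃ φ : (Y.X.factor i).E →+* L,
      tf p ν j (hs (Y.X.factor i) j φ) = tf p ν j (hs (Y.X.factor k) j φ') := by
  obtain ⟨e, s, hs0, h⟩ := h
  refine ⟨φ'.comp (e : (Y.X.factor i).E →+* (Y.X.factor k).E), ?_⟩
  set φ : (Y.X.factor i).E →+* L := φ'.comp (e : (Y.X.factor i).E →+* (Y.X.factor k).E) with hφ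
  have h8 : ∀ σ : L ≃ₐ[ℚ] L, ‖ν.symm (j (σ (φ (Y.π i))))‖ ^ (2 * (Nat.card (Dec p ν j) : ℤ)) =
      ‖(p : PadicAlgCl p)‖ ^ ((Y.a : ℤ) * ((Nat.card (Dec p ν j) : ℤ) +
        tf p ν j (hs (Y.X.factor i) j φ) σ)) := fun σ =>
    val_conj hval (Y.X.factor i) (hY _) Y.a (Y.π i) (Y.frob i) φ σ
  have h9 : ∀ σ : L ≃ₐ[ℚ] L, ‖ν.symm (j (σ (φ' (Y.π k))))‖ ^ (2 * (Nat.card (Dec p ν j) : ℤ)) =
      ‖(p : PadicAlgCl p)‖ ^ ((Y.a : ℤ) * ((Nat.card (Dec p ν j) : ℤ) +
        tf p ν j (hs (Y.X.factor k) j φ') σ)) := fun σ =>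
    val_conj hval (Y.X.factor k) (hY _) Y.a (Y.π k) (Y.frob k) φ' σ
  have ha : (Y.a : ℤ) ≠ 0 := by exact_mod_cast Y.pos.ne'
  have hs1 : (s : ℤ) ≠ 0 := by exact_mod_cast hs0.ne'
  funext σ
  have h1 := congrArg (fun x => ‖ν.symm (j (σ (φ' x)))‖ ^ (2 * (Nat.card (Dec p ν j) : ℤ))) h
  have h1' : φ' (e (Y.π i)) = φ (Y.π i) := rfl
  simp only [map_pow, norm_pow] at h1
  rw [h1'] at h1
  have h2 : (‖ν.symm (j (σ (φ (Y.π i))))‖ ^ s) ^ (2 * (Nat.card (Dec p ν j) : ℤ)) =
      ‖(p : PadicAlgCl p)‖ ^ ((Y.a : ℤ) * ((Nat.card (Dec p ν j) : ℤ) +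
      tf p ν j (hs (Y.X.factor i) j φ) σ) * (s : ℕ)) := by
    rw [← zpow_natCast, ← zpow_mul, mul_comm, zpow_mul, h8, ← zpow_mul]
  have h3 : (‖ν.symm (j (σ (φ' (Y.π k))))‖ ^ s) ^ (2 * (Nat.card (Dec p ν j) : ℤ)) =
      ‖(p : PadicAlgCl p)‖ ^ ((Y.a : ℤ) * ((Nat.card (Dec p ν j) : ℤ) +
      tf p ν j (hs (Y.X.factor k) j φ') σ) * (s : ℕ)) := by
    rw [← zpow_natCast, ← zpow_mul, mul_comm, zpow_mul, h9, ← zpow_mul]
  rw [h2, h3] at h1
  have h4 := zpow_inj h1
  have h5 := mul_left_cancel₀ ha (mul_right_cancel₀ hs1 h4)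
  linarith

end val

/-- The theorem from its parts. -/
theorem small_of_parts (hval : S_val) (hru : S_ru) (hbasis : S_basis) (hexp : S_expand)
    (hpull : S_pull) (hcl : S_closed1) (hpush : S_push) (hflip : S_flip2)
    (horb : S_orb) (hhonda : S_honda) (hweil : S_weilG) (hss : S_ss2) (hstruct : S_struct)
    (hsep : S_sep) (hsingle : S_single) (hgroup : S_group) (hloc : S_loc) (hindep : S_indep)
    (hcomb : S_combC) (hcancel : S_cancel) (hclos : S_clos) : S_small := by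
  classical
  intro p _ ν Ω _ _ _ Y hY s m hs0 f hf
  rcases isEmpty_or_nonempty Y.X.I with hI | hI
  · -- the zero-dimensional case
    have hsub : Subsingleton (TM Ω Y) := by
      have h0 : Subsingleton Y.X.H1 := ⟨fun a b => funext fun i => (hI.false i).elim⟩
      refine ⟨fun a b => ?_⟩
      have h1 : ∀ c : TM Ω Y, c = 0 := by
        intro c
        induction c using TensorProduct.induction_on with
        | zero => rfl
        | tmul x y => rw [Subsingleton.elim y 0, TensorProduct.tmul_zero]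
        | add x y hx hy => rw [hx, hy, add_zero]
      rw [h1 a, h1 b]
    rcases Nat.eq_zero_or_pos m with hm | hm
    · subst hm
      have : IsEmpty (Fin (2 * 0)) := by
        rw [mul_zero]
        infer_instance
      exact Alg.unit f
    · have : f = 0 := by
        ext v
        have h2 : v ⟨0, by omega⟩ = 0 := Subsingleton.elim _ _
        rw [f.map_coord_zero ⟨0, by omega⟩ h2]
        rfl
      rw [this]
      exact Alg.zero Y _
  obtain ⟨L, _, _, _, _, j, hj⟩ := exists_cm Y.X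
  have hYj : Big Y.X j := hj
  let jO : L →+* Ω := ((IsAlgClosed.lift : L →ₐ[ℚ] Ω) : L →+* Ω)
  obtain ⟨e, h1, h2⟩ := hbasis p ν Ω L j jO Y hYj
  refine hexp p ν Ω L jO Y e h1 h2 _ f fun I hI => ?_
  have hbal := balanced jO hval hYj e h1 h2 s m hs0 f hf I hI
  -- the functions
  let D := Dec p ν j
  let n : ∀ i : Y.X.I, ((Y.X.factor i).E →+* L) → (L ≃ₐ[ℚ] L) → ℤ := fun i φ =>
    nf D (eps j (Y.X.factor i)) φ
  have hn : ∀ (i : Y.X.I) (φ : (Y.X.factor i).E →+* L),
      tf p ν j (hs (Y.X.factor i) j φ) = n i φ := fun i φ => tf_hs j (Y.X.factor i) φ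
  have hset : ∀ i : Y.X.I, Setting (L ≃ₐ[ℚ] L) ((Y.X.factor i).E →+* L) (cc L) := fun i =>
    setting j (Y.X.factor i)
  have hnsmul : ∀ (i : Y.X.I) (φ : (Y.X.factor i).E →+* L) (g : L ≃ₐ[ℚ] L),
      n i (g • φ) = fun h => n i φ (h * g) := by
    intro i φ g
    funext h
    change nf D (eps j (Y.X.factor i)) (g • φ) h = nf D (eps j (Y.X.factor i)) φ (h * g)
    unfold nf
    refine Finset.sum_congr rfl fun d _ => ?_
    rw [mul_smul]
  -- isogenous factors
  let r : Setoid Y.X.I :=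
    { r := fun i k => ∃ (φ : (Y.X.factor i).E →+* L) (φ' : (Y.X.factor k).E →+* L),
        n i φ = n k φ'
      iseqv := by
        refine ⟨fun i => ?_, ?_, ?_⟩
        · obtain ⟨ψ⟩ : Nonempty ((Y.X.factor i).E →+* ℂ) := inferInstance
          obtain ⟨φ, -⟩ := hYj i ψ
          exact ⟨φ, φ, rfl⟩
        · rintro i k ⟨φ, φ', h⟩
          exact ⟨φ', φ, h.symm⟩
        · rintro i k l ⟨φ, φ', h⟩ ⟨ψ, ψ', h'⟩
          obtain ⟨g, hg⟩ := (hset k).trans ψ φ'
          refine ⟨φ, g • ψ', ?_⟩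
          rw [h, ← hg, hnsmul, hnsmul, h'] }
  have hfin : ∀ i : Y.X.I, Finite ((Y.X.factor i).E →+* L) := by
    intro i
    refine Finite.of_injective (fun φ : (Y.X.factor i).E →+* L => j.comp φ) ?_
    intro φ φ' h
    ext a
    exact j.injective (RingHom.congr_fun h a)
  let ι : Type := Quotient r
  have hι : Fintype ι := Fintype.ofFinite _
  let A : ι → CMPair := fun q => Y.X.factor q.out
  have hA : ∀ q, BigA (A q) j := fun q => hYj q.out
  have hXfin : ∀ q : ι, Fintype ((A q).E →+* L) := fun q => Fintype.ofFinite _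
  have hcardA : ∀ q : ι, Fintype.card ((A q).E →+* L) ≤ 6 := fun q =>
    (card_emb (hA q)).trans_le (hY.degree q.out)
  have hdisj : ∀ (q q' : ι) (x : (A q).E →+* L) (y : (A q').E →+* L),
      nf D (eps j (A q)) x = nf D (eps j (A q')) y → q = q' := by
    intro q q' x y h
    have h3 : r.r q.out q'.out := ⟨x, y, h⟩
    exact Quotient.out_equiv_out.1 h3
  have hker : ∀ q q' : ι, Wide (nf (X := (A q).E →+* L) D (eps j (A q))) →
      Wide (nf (X := (A q').E →+* L) D (eps j (A q'))) →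
      (∀ g : L ≃ₐ[ℚ] L, (∀ x, nf D (eps j (A q)) (g • x) = nf D (eps j (A q)) x) ↔
        ∀ x, nf D (eps j (A q')) (g • x) = nf D (eps j (A q')) x) → q = q' := by
    intro q q' hw hw' hk
    obtain ⟨h3, h4⟩ := hclos p ν L j (A q) (A q') (hA q) (hA q') (hY.degree q.out)
      (hY.degree q'.out)
      (by
        obtain ⟨x, y, h5, h6⟩ := hw
        refine ⟨x, y, ?_, ?_⟩
        · change tf p ν j (hs (A q) j x) ≠ tf p ν j (hs (A q) j y)
          rw [tf_hs, tf_hs]
          exact h5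
        · change tf p ν j (hs (A q) j x) ≠ -tf p ν j (hs (A q) j y)
          rw [tf_hs, tf_hs]
          exact h6)
      (by
        obtain ⟨x, y, h5, h6⟩ := hw'
        refine ⟨x, y, ?_, ?_⟩
        · change tf p ν j (hs (A q') j x) ≠ tf p ν j (hs (A q') j y)
          rw [tf_hs, tf_hs]
          exact h5
        · change tf p ν j (hs (A q') j x) ≠ -tf p ν j (hs (A q') j y)
          rw [tf_hs, tf_hs]
          exact h6)
      (by
        intro g
        simp only [tf_hs]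
        exact hk g)
    rcases hY.closure q.out q'.out h3 with h5 | h5 | h5 | h5
    · obtain ⟨φ, φ', h6⟩ := h4 h5
      rw [tf_hs, tf_hs] at h6
      exact hdisj q q' φ φ' h6
    · exfalso
      obtain ⟨x, y, h6, -⟩ := hw
      apply h6
      have h7 := tf_zero hval hYj q.out h5 x
      have h8 := tf_zero hval hYj q.out h5 y
      rw [tf_hs] at h7 h8
      exact h7.trans h8.symm
    · exfalso
      obtain ⟨x, y, h6, -⟩ := hw'
      apply h6
      have h7 := tf_zero hval hYj q'.out h5 x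
      have h8 := tf_zero hval hYj q'.out h5 y
      rw [tf_hs] at h7 h8
      exact h7.trans h8.symm
    · obtain ⟨x, -⟩ := hw'
      obtain ⟨φ, hφ⟩ := tf_iso hval hYj q.out q'.out h5 x
      rw [tf_hs, tf_hs] at hφ
      exact hdisj q q' φ x hφ
  obtain ⟨c1, c2, c3, c4⟩ := hcl hval hru p ν Ω L j jO
  have hclosed : Closed (L ≃ₐ[ℚ] L) (AlgM p ν j jO) := ⟨c1, c2, c3, c4⟩
  have key := hcomb hsep (hsingle hstruct) hgroup hloc hindep (L ≃ₐ[ℚ] L) (cc L) ι
    (fun q => (A q).E →+* L) (fun q => hset q.out) D (fun q => eps j (A q))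
    (fun q => isSign_eps j (A q)) hcardA hdisj hker (AlgM p ν j jO) hclosed ?_ ?_ (Fin (2 * m))
    (fun k => tf p ν j (St j (I k))) ?_ hbal ?_
  · exact key Y hYj I fun k => rfl
  · intro q ε' hε' x
    have h3 := hcancel hhonda hval hru hbasis hcl p ν Ω L j jO (ys ε' x) (isHalf_ys hε' x)
    rw [tf_ys j hε'] at h3
    exact h3
  · intro q s' hs' hsemi hresp hc6 x₀ hx₀ F hF hF'
    intro _ _
    exact blockA hval hru hbasis hpull hcl hpush hflip horb hhonda hweil hss hloc p ν Ω L j jO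
      (A q) s' hs' hsemi hresp hc6 x₀ hx₀ F hF hF'
  · intro k
    obtain ⟨i, φ⟩ := I k
    have h3 : r.r (Quotient.mk r i).out i := Quotient.mk_out i
    obtain ⟨ψ, ψ', h4⟩ := h3
    obtain ⟨g, hg⟩ := (hset i).trans ψ' φ
    refine ⟨Quotient.mk r i, g • ψ, ?_⟩
    have h5 : tf p ν j (St j (⟨i, φ⟩ : Wt Y.X L)) = n i φ := hn i φ
    rw [h5, ← hg, hnsmul, ← h4]
    exact (hnsmul (Quotient.mk r i).out ψ g).symm
  · rw [Fintype.card_fin]
    exact even_two_mul m

end

end Pool.Agent.W495.TC
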