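import Pool.Agent.W495.TB.Final
import Pool.Agent.W547.LN.Sep

/-!
# Abelian varieties over finite fields with simple factors of dimension at most three: the parts of
the proof
-/

set_option autoImplicit false

namespace Pool.Agent.W495.TC

open NumberField Pool.Agent.H204R3.CM Pool.Agent.W547.KB Pool.Agent.W547.LD Module
  Pool.Agent.W495.TA Pool.Agent.W495.TB
open scoped TensorProduct

noncomputable section

/-! ### The theorem -/

section

variable {p : ℕ} [Fact p.Prime] {ν : PadicAlgCl p ≃+* ℂ}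

/-- The factor is supersingular: a power of its Frobenius endomorphism is a power of `p`. -/
def IsSupersingular (Y : RedAV p ν) (i : Y.X.I) : Prop :=
  ∃ s : ℕ, 0 < s ∧ (Y.π i) ^ (2 * s) = ((p : (Y.X.factor i).E) ^ Y.a) ^ s

/-- The two factors are (over an algebraic closure) powers of isogenous abelian varieties: an
isomorphism of the CM fields takes a power of the Frobenius endomorphism of the one to the same power
of the Frobenius endomorphism of the other. -/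
def IsIsogenous (Y : RedAV p ν) (i k : Y.X.I) : Prop :=
  ∃ (e : (Y.X.factor i).E ≃+* (Y.X.factor k).E) (s : ℕ), 0 < s ∧ e ((Y.π i) ^ s) = (Y.π k) ^ s

/-- The factors of `Y` have dimension at most three, and any two factors whose CM fields have the same
Galois closure over `ℚ` (in the field of complex numbers) are isogenous, unless these CM fields are
Galois over `ℚ` or one of the factors is supersingular. -/
structure HasSmallFactors (Y : RedAV p ν) : Prop where
  degree : ∀ i, finrank ℚ (Y.X.factor i).E ≤ 6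
  closure : ∀ i k, IntermediateField.normalClosure ℚ (Y.X.factor i).E ℂ =
    IntermediateField.normalClosure ℚ (Y.X.factor k).E ℂ →
      IsGalois ℚ (Y.X.factor i).E ∨ IsSupersingular Y i ∨ IsSupersingular Y k ∨ IsIsogenous Y i k

end

/-- The main theorem: all Tate classes on all abelian varieties with small factors. -/
def S_small : Prop :=
  ∀ (p : ℕ) [Fact p.Prime] (ν : PadicAlgCl p ≃+* ℂ) (Ω : Type) [Field Ω] [IsAlgClosed Ω]
    [CharZero Ω] (Y : RedAV p ν) (_hY : HasSmallFactors Y) (s m : ℕ) (_hs : 0 < s)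
    (f : (TM Ω Y) [⋀^Fin (2 * m)]→ₗ[Ω] Ω) (_hf : IsTateClass Ω Y s m f),
    Alg Ω Y (Fin (2 * m)) f

/-! ### Combinatorics -/

/-- The functions `v x` are not all equal up to sign. -/
def Wide {X V : Type} [Neg V] (v : X → V) : Prop := ∃ x y, v x ≠ v y ∧ v x ≠ -v y

/-- Separation of orbits: in a relation between the functions `v i x`, the part belonging to each
orbit `i` is a combination of odd quadratic characters. -/
def S_sep : Prop :=
  ∀ (G : Type) [Group G] [Fintype G] (c : G) (_ : ∀ g, c * g = g * c) (ι : Type) [Fintype ι]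
    (X : ι → Type) [∀ i, Fintype (X i)] [∀ i, MulAction G (X i)]
    (_ : ∀ i (x y : X i), ∃ g : G, g • x = y) (_ : ∀ i, Fintype.card (X i) ≤ 6)
    (v : ∀ i, X i → G → ℤ) (_ : ∀ i (x : X i) (g h : G), v i (g • x) h = v i x (h * g))
    (_ : ∀ i (x : X i), v i (c • x) = -v i x)
    (_ : ∀ i k, Wide (v i) → Wide (v k) →
      (∀ g : G, (∀ x, v i (g • x) = v i x) ↔ ∀ x, v k (g • x) = v k x) → i = k)
    (a : ∀ i, X i → ℚ) (_ : ∑ i, ∑ x, a i x • (fun g => (v i x g : ℚ)) = 0) (i : ι),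
    ∑ x, a i x • (fun g => (v i x g : ℚ)) ∈ Comb.QQ c

/-- One orbit. -/
def S_single : Prop :=
  S_struct →
  ∀ (G X : Type) [Group G] [Fintype G] [Fintype X] [MulAction G X] (c : G) (_ : Setting G X c)
    (D : Subgroup G) (ε : X → ℤ) (_ : IsSign c ε) (_ : Fintype.card X ≤ 6) (a : X → ℤ)
    (_ : ∀ x, a (c • x) = -a x) (_ : ∀ x y, nf D ε x = nf D ε y → a x = a y)
    (_ : ∑ x, (a x : ℚ) • (fun g => (nf D ε x g : ℚ)) ∈ Comb.QQ c), Semi G a

/-- The number of occurrences of `f` minus the number of occurrences of `-f`. -/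
def dcnt {G κ : Type} (t : κ → G → ℤ) (f : G → ℤ) : ℤ :=
  (Nat.card {k // t k = f} : ℤ) - Nat.card {k // t k = -f}

/-- Families of functions in `R` with the property `Q`. -/
structure IsGood (G : Type) (Q : (κ : Type) → (κ → G → ℤ) → Prop) (R : Set (G → ℤ)) (β : Type)
    (b : β → G → ℤ) : Prop where
  fin : Finite β
  even : Even (Nat.card β)
  mem : ∀ k, b k ∈ R
  pos : Q β b
  neg : Q β fun k => -b k

/-- Pairs `f`, `-f` may be removed. -/
def PairCancel (G : Type) (Q : (κ : Type) → (κ → G → ℤ) → Prop) (f : G → ℤ) : Prop :=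
  ∀ (κ : Type) [Finite κ] (t : κ → G → ℤ), Q (κ ⊕ Fin 2) (Sum.elim t ![f, -f]) → Q κ t

/-- Families that are integral combinations of good families. -/
def S_group : Prop :=
  ∀ (G : Type) (Q : (κ : Type) → (κ → G → ℤ) → Prop) (_ : Closed G Q) (R : Set (G → ℤ))
    (_ : ∀ f ∈ R, PairCancel G Q f) (ι : Type) [Fintype ι] (β : ι → Type)
    (b : ∀ i, β i → G → ℤ) (_ : ∀ i, IsGood G Q R (β i) (b i)) (m : ι → ℤ) (κ : Type) [Finite κ]
    (t : κ → G → ℤ) (_ : ∀ k, t k ∈ R) (_ : Even (Nat.card κ))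
    (_ : ∀ f, dcnt t f = ∑ i, m i * dcnt (b i) f), Q κ t

/-- Semi-invariant signs on one orbit. -/
def S_loc : Prop :=
  ∀ (G X : Type) [Group G] [Fintype G] [Fintype X] [MulAction G X] (c : G) (_ : Setting G X c)
    (D : Subgroup G) (ε : X → ℤ) (_ : IsSign c ε) (_ : Fintype.card X ≤ 6) (s : X → ℤ)
    (_ : IsSign c s) (_ : Semi G s) (_ : ∀ x y, nf D ε x = nf D ε y → s x = s y) (x₀ : X)
    (_ : s x₀ = 1) (F : ℤ) (_ : F = ∑ x, if s x = 1 then ε x else 0),
    (∀ g, ∑ x, s x * nf D ε x g = 2 * F * nf D s x₀ g) ∧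
    (∀ x, nf D s x = s x • nf D s x₀) ∧
    (nf D s x₀ = 0 ∨ ∀ g, nf D s x₀ g = Nat.card D * s (g • x₀)) ∧
    (Function.Injective (nf (X := X) D ε) ∨ ∀ x, s x = 1 → nf D ε x = nf D ε x₀) ∧
    ((Fintype.card X = 6 ∧ (F = 1 ∨ F = -1 ∨ nf D s x₀ = 0)) ∨
      ∃ u : ℤ, (u = 1 ∨ u = -1) ∧ (∀ x, nf D ε x = u • nf D s x) ∧ 2 * F = u * Fintype.card X)

open Classical in
/-- The independence of quadratic characters. -/
def S_indep : Prop :=
  ∀ (G ι : Type) [Group G] [Fintype ι] (X : ι → Type) [∀ i, MulAction G (X i)]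
    (s : ∀ i, X i → ℤ) (x₀ : ∀ i, X i) (_ : ∀ i x, s i x = 1 ∨ s i x = -1)
    (_ : ∀ i, Semi G (s i)) (_ : ∀ i, s i (x₀ i) = 1) (n : ℤ) (_ : 0 < n) (e : ι → G → ℤ)
    (_ : ∀ i, e i = 0 ∨ ∀ g, e i g = n * s i (g • x₀ i)) (z : ι → ℚ)
    (_ : ∀ g, ∑ i, z i * (e i g : ℚ) = 0) (f : G → ℤ) (_ : f ≠ 0),
    ∑ i, z i * (if e i = f then 1 else 0) = 0

/-- The decomposition of balanced families of functions in several orbits. -/
def S_combC : Prop :=
  S_sep → (∀ (G X : Type) [Group G] [Fintype G] [Fintype X] [MulAction G X] (c : G)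
    (_ : Setting G X c) (D : Subgroup G) (ε : X → ℤ) (_ : IsSign c ε) (_ : Fintype.card X ≤ 6)
    (a : X → ℤ) (_ : ∀ x, a (c • x) = -a x) (_ : ∀ x y, nf D ε x = nf D ε y → a x = a y)
    (_ : ∑ x, (a x : ℚ) • (fun g => (nf D ε x g : ℚ)) ∈ Comb.QQ c), Semi G a) →
  S_group → S_loc → S_indep →
  ∀ (G : Type) [Group G] [Fintype G] (c : G) (ι : Type) [Fintype ι]
    (X : ι → Type) [∀ i, Fintype (X i)] [∀ i, MulAction G (X i)] (_ : ∀ i, Setting G (X i) c)
    (D : Subgroup G) (ε : ∀ i, X i → ℤ) (_ : ∀ i, IsSign c (ε i))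
    (_ : ∀ i, Fintype.card (X i) ≤ 6)
    (_ : ∀ i k (x : X i) (y : X k), nf D (ε i) x = nf D (ε k) y → i = k)
    (_ : ∀ i k, Wide (nf (X := X i) D (ε i)) → Wide (nf (X := X k) D (ε k)) →
      (∀ g : G, (∀ x, nf D (ε i) (g • x) = nf D (ε i) x) ↔
        ∀ x, nf D (ε k) (g • x) = nf D (ε k) x) → i = k)
    (Q : (κ : Type) → (κ → G → ℤ) → Prop) (_ : Closed G Q)
    (_ : ∀ i (ε' : X i → ℤ), IsSign c ε' → ∀ x, PairCancel G Q (nf D ε' x))
    (_ : ∀ i (s : X i → ℤ), IsSign c s → Semi G s →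
      (∀ x y, nf D (ε i) x = nf D (ε i) y → s x = s y) → Fintype.card (X i) = 6 →
      ∀ x₀, s x₀ = 1 → ∀ F : ℤ, (F = ∑ x, if s x = 1 then ε i x else 0) →
      (F = 1 ∨ F = -1 ∨ nf D s x₀ = 0) →
      Q ({x : X i // s x = 1} ⊕ Fin 1)
        (Sum.elim (fun x => nf D (ε i) x.1) fun _ => -F • nf D s x₀))
    (κ : Type) [Fintype κ] (t : κ → G → ℤ) (_ : ∀ k, ∃ i x, t k = nf D (ε i) x)
    (_ : ∀ g, ∑ k, t k g = 0) (_ : Even (Fintype.card κ)), Q κ t

/-! ### Number theory and geometry -/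

/-- The functions of conjugate weights may be removed in pairs. -/
def S_cancel : Prop :=
  S_honda → S_val → S_ru → S_basis → S_closed1 →
  ∀ (p : ℕ) [Fact p.Prime] (ν : PadicAlgCl p ≃+* ℂ) (Ω : Type) [Field Ω] [CharZero Ω] (L : Type)
    [Field L] [NumberField L] [IsCMField L] [IsGalois ℚ L] (j : L →+* ℂ) (jO : L →+* Ω)
    (S : Set (L ≃ₐ[ℚ] L)) (_ : IsHalf S),
    PairCancel (L ≃ₐ[ℚ] L) (AlgM p ν j jO) (tf p ν j S)

/-- Kernels and Galois closures. -/
def S_clos : Prop :=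
  ∀ (p : ℕ) [Fact p.Prime] (ν : PadicAlgCl p ≃+* ℂ) (L : Type)
    [Field L] [NumberField L] [IsCMField L] [IsGalois ℚ L] (j : L →+* ℂ) (A B : CMPair)
    (_ : BigA A j) (_ : BigA B j) (_ : finrank ℚ A.E ≤ 6) (_ : finrank ℚ B.E ≤ 6)
    (_ : Wide fun φ : A.E →+* L => tf p ν j (hs A j φ))
    (_ : Wide fun φ : B.E →+* L => tf p ν j (hs B j φ))
    (_ : ∀ g : L ≃ₐ[ℚ] L,
      (∀ φ : A.E →+* L, tf p ν j (hs A j (g • φ)) = tf p ν j (hs A j φ)) ↔
        ∀ φ : B.E →+* L, tf p ν j (hs B j (g • φ)) = tf p ν j (hs B j φ)),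
    IntermediateField.normalClosure ℚ A.E ℂ = IntermediateField.normalClosure ℚ B.E ℂ ∧
      (IsGalois ℚ A.E → ∃ (φ : A.E →+* L) (φ' : B.E →+* L),
        tf p ν j (hs A j φ) = tf p ν j (hs B j φ'))

end

end Pool.Agent.W495.TC
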